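import Mathlib

set_option autoImplicit false

/-!
# A proof of the no-retraction theorem and of a zero-existence theorem (Brouwer)

`Pool.Agent.Lib.BrouwerThm.exists_zero_of_eq_linear`: if `G : E → E` is continuous on a finite
dimensional real normed space and agrees with a linear automorphism outside a ball,
then `G` has a zero.
-/

namespace Pool.Agent.Lib.BrouwerThm

open Set Metric MeasureTheory Module
open scoped NNReal ENNReal Topology ContDiff

section Smooth

variable {E : Type*} [NormedAddCommGroup E] [InnerProductSpace ℝ E] [FiniteDimensional ℝ E]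

/-- Determinant of `1 + t A` is a polynomial in `t` of degree at most the dimension. -/
theorem exists_poly_det (A : E →L[ℝ] E) :
    ∃ P : Polynomial ℝ, P.degree < ((finrank ℝ E + 1 : ℕ) : WithBot ℕ) ∧
      ∀ t : ℝ, P.eval t = (ContinuousLinearMap.id ℝ E + t • A).det := by
  classical
  let b := stdOrthonormalBasis ℝ E
  let M : Matrix (Fin (finrank ℝ E)) (Fin (finrank ℝ E)) ℝ :=
    LinearMap.toMatrix b.toBasis b.toBasis (A : E →ₗ[ℝ] E)
  refine ⟨Matrix.det ((Polynomial.X : Polynomial ℝ) • M.map Polynomial.C +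
    (1 : Matrix (Fin (finrank ℝ E)) (Fin (finrank ℝ E)) ℝ).map Polynomial.C), ?_, ?_⟩
  · have h := Polynomial.natDegree_det_X_add_C_le M 1
    rw [Fintype.card_fin] at h
    refine lt_of_le_of_lt Polynomial.degree_le_natDegree ?_
    exact_mod_cast Nat.lt_succ_of_le h
  · intro t
    have h2 : (ContinuousLinearMap.id ℝ E + t • A).det =
        (1 + t • M).det := by
      have h1 : (ContinuousLinearMap.id ℝ E + t • A).det =
        LinearMap.det (((ContinuousLinearMap.id ℝ E + t • A : E →L[ℝ] E)) : E →ₗ[ℝ] E) := rfl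
      rw [h1, ← LinearMap.det_toMatrix b.toBasis]
      congr 1
      have h3 : ((ContinuousLinearMap.id ℝ E + t • A : E →L[ℝ] E) : E →ₗ[ℝ] E) =
        LinearMap.id + t • (A : E →ₗ[ℝ] E) := rfl
      rw [h3, map_add, map_smul, LinearMap.toMatrix_id]
    rw [h2, ← Polynomial.coe_evalRingHom, RingHom.map_det]
    congr 1
    ext i j
    rw [RingHom.mapMatrix_apply, Matrix.map_apply, Matrix.add_apply, Matrix.smul_apply,
      Matrix.map_apply, Matrix.map_apply, Matrix.add_apply, Matrix.smul_apply]
    simp only [smul_eq_mul, map_add, map_mul, Polynomial.coe_evalRingHom, Polynomial.eval_X,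
      Polynomial.eval_C]
    ring

theorem det_ne_zero_of_norm_le (A : E →L[ℝ] E) (hA : ‖A‖ ≤ 1 / 2) :
    (ContinuousLinearMap.id ℝ E + A).det ≠ 0 := by
  intro h
  have h1 := LinearMap.bot_lt_ker_of_det_eq_zero h
  obtain ⟨v, hv, hv0⟩ := (Submodule.ne_bot_iff _).1 h1.ne'
  rw [LinearMap.mem_ker] at hv
  have h2 : v + A v = 0 := hv
  have h3 : ‖v‖ = ‖A v‖ := by
    rw [eq_neg_of_add_eq_zero_left h2, norm_neg]
    rw [← eq_neg_of_add_eq_zero_left h2]
  have h4 := A.le_opNorm v
  have h5 : 0 < ‖v‖ := norm_pos_iff.2 hv0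
  nlinarith

theorem det_pos_of_norm_le (A : E →L[ℝ] E) (hA : ‖A‖ ≤ 1 / 2) :
    0 < (ContinuousLinearMap.id ℝ E + A).det := by
  by_contra hneg
  push Not at hneg
  let F : ℝ → ℝ := fun t => (ContinuousLinearMap.id ℝ E + t • A).det
  have hF : Continuous F := by
    refine ContinuousLinearMap.continuous_det.comp ?_
    fun_prop
  have h0 : F 0 = 1 := by
    simp only [F, zero_smul, add_zero]
    exact LinearMap.det_id
  have h1 : F 1 ≤ 0 := by simpa only [F, one_smul] using hneg
  have h2 : (0 : ℝ) ∈ Icc (F 1) (F 0) := ⟨h1, by rw [h0]; exact zero_le_one⟩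
  obtain ⟨t, ht, hFt⟩ := intermediate_value_Icc' zero_le_one hF.continuousOn h2
  refine det_ne_zero_of_norm_le (t • A) ?_ hFt
  rw [norm_smul, Real.norm_eq_abs, abs_of_nonneg ht.1]
  nlinarith [ht.2, norm_nonneg A, ht.1]

/-- There is no continuously differentiable retraction of a ball onto its boundary sphere. -/
theorem no_smooth_retraction (ρ : ℝ) (hρ : 0 < ρ) (f : E → E) (hf : ContDiff ℝ 1 f)
    (h1 : ∀ x, ‖f x‖ = ρ) (h2 : ∀ x, ‖x‖ = ρ → f x = x) : False := by
  classical
  borelize E
  let μ : Measure E := Measure.addHaar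
  have hnt : Nontrivial E := ⟨⟨f 0, 0, fun h => by
    have := h1 0
    rw [h, norm_zero] at this
    exact hρ.ne this⟩⟩
  let U : Set E := ball 0 ρ
  let K : Set E := closedBall 0 ρ
  have hUK : U ⊆ K := ball_subset_closedBall
  let g : E → E := fun x => f x - x
  have hg : ContDiff ℝ 1 g := hf.sub contDiff_id
  let D : E → (E →L[ℝ] E) := fderiv ℝ g
  have hD : Continuous D := hg.continuous_fderiv (by norm_num)
  have hgD : ∀ x, HasFDerivAt g (D x) x := fun x =>
    (hg.differentiable (by norm_num) x).hasFDerivAt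
  obtain ⟨C0, hC0⟩ := (isCompact_closedBall (0 : E) ρ).exists_bound_of_continuousOn hD.continuousOn
  let C : ℝ := max C0 0
  have hC : ∀ x ∈ K, ‖D x‖ ≤ C := fun x hx => (hC0 x hx).trans (le_max_left _ _)
  have hCnn : 0 ≤ C := le_max_right _ _
  have hlip : ∀ x ∈ K, ∀ y ∈ K, ‖g x - g y‖ ≤ C * ‖x - y‖ := by
    intro x hx y hy
    exact (convex_closedBall (0 : E) ρ).norm_image_sub_le_of_norm_hasFDerivWithin_le
      (fun z _ => (hgD z).hasFDerivWithinAt) hC hy hx
  let t0 : ℝ := 1 / (2 * (C + 1))
  have ht0 : 0 < t0 := by positivity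
  have ht0C : t0 * C ≤ 1 / 2 := by
    have : t0 * (C + 1) = 1 / 2 := by
      simp only [t0]
      field_simp
    nlinarith
  have ht01 : t0 < 1 := by
    have h3 : t0 * (C + 1) = 1 / 2 := by
      simp only [t0]
      field_simp
    nlinarith
  -- volume of the image
  have key : ∀ t : ℝ, 0 ≤ t → t ≤ t0 →
      ∫ x in U, (ContinuousLinearMap.id ℝ E + t • D x).det ∂μ = (μ U).toReal := by
    intro t ht htt0
    let F : E → E := fun x => x + t • g x
    have hFD : ∀ x, HasFDerivAt F (ContinuousLinearMap.id ℝ E + t • D x) x := fun x =>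
      (hasFDerivAt_id x).add ((hgD x).const_smul t)
    have hFc : Continuous F := continuous_id.add (hg.continuous.const_smul t)
    have happ : ApproximatesLinearOn F
        ((ContinuousLinearEquiv.refl ℝ E : E ≃L[ℝ] E) : E →L[ℝ] E) K (1 / 2 : ℝ≥0) := by
      intro x hx y hy
      have h3 : F x - F y - ((ContinuousLinearEquiv.refl ℝ E : E ≃L[ℝ] E) : E →L[ℝ] E) (x - y)
          = t • (g x - g y) := by
        simp only [F, ContinuousLinearEquiv.coe_refl, ContinuousLinearMap.coe_id', id_eq]
        module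
      rw [h3, norm_smul, Real.norm_eq_abs, abs_of_nonneg ht]
      have h4 := hlip x hx y hy
      have h5 : t * C ≤ 1 / 2 := (mul_le_mul_of_nonneg_right htt0 hCnn).trans ht0C
      calc t * ‖g x - g y‖ ≤ t * (C * ‖x - y‖) := mul_le_mul_of_nonneg_left h4 ht
        _ = (t * C) * ‖x - y‖ := by ring
        _ ≤ (1 / 2) * ‖x - y‖ := mul_le_mul_of_nonneg_right h5 (norm_nonneg _)
        _ = ((1 / 2 : ℝ≥0) : ℝ) * ‖x - y‖ := by norm_num
    have hN : (1 / 2 : ℝ≥0) <
        ‖((ContinuousLinearEquiv.refl ℝ E).symm : E →L[ℝ] E)‖₊⁻¹ := by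
      have : ‖((ContinuousLinearEquiv.refl ℝ E).symm : E →L[ℝ] E)‖₊ = 1 := by
        have h6 : ((ContinuousLinearEquiv.refl ℝ E).symm : E →L[ℝ] E) =
          ContinuousLinearMap.id ℝ E := rfl
        rw [h6]
        exact ContinuousLinearMap.nnnorm_id
      rw [this, inv_one]
      exact NNReal.half_lt_self one_ne_zero
    have hinj : InjOn F K := happ.injOn (Or.inr hN)
    have hopen : IsOpen (F '' U) := by
      refine (happ.mono_set hUK).open_image
        (ContinuousLinearEquiv.refl ℝ E).toNonlinearRightInverse isOpen_ball (Or.inr ?_)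
      exact hN
    have hclosed : IsClosed (F '' K) :=
      ((isCompact_closedBall (0 : E) ρ).image hFc).isClosed
    have hFf : ∀ x, F x = (1 - t) • x + t • f x := by
      intro x
      simp only [F, g]
      module
    have hmaps : F '' U ⊆ U := by
      rintro _ ⟨x, hx, rfl⟩
      rw [mem_ball_zero_iff] at hx ⊢
      rw [hFf]
      have h1t : 0 < 1 - t := by linarith
      calc ‖(1 - t) • x + t • f x‖ ≤ ‖(1 - t) • x‖ + ‖t • f x‖ := norm_add_le _ _
        _ = (1 - t) * ‖x‖ + t * ρ := by
          rw [norm_smul, norm_smul, h1, Real.norm_eq_abs, Real.norm_eq_abs,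
            abs_of_pos h1t, abs_of_nonneg ht]
        _ < ρ := by nlinarith
    have hinter : F '' K ∩ U ⊆ F '' U := by
      rintro _ ⟨⟨x, hx, rfl⟩, hxU⟩
      rcases (mem_closedBall_zero_iff.1 hx).lt_or_eq with h | h
      · exact ⟨x, mem_ball_zero_iff.2 h, rfl⟩
      · exfalso
        have h7 : F x = x := by
          simp only [F, g, h2 x h, sub_self, smul_zero, add_zero]
        rw [h7, mem_ball_zero_iff, h] at hxU
        exact lt_irrefl _ hxU
    have himage : F '' U = U := by
      apply Subset.antisymm hmaps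
      have hcover : U ⊆ F '' U ∪ (F '' K)ᶜ := by
        intro y hy
        by_cases hyK : y ∈ F '' K
        · exact Or.inl (hinter ⟨hyK, hy⟩)
        · exact Or.inr hyK
      have hdisj : Disjoint (F '' U) (F '' K)ᶜ :=
        disjoint_compl_right_iff_subset.2 (image_mono hUK)
      have hne : (U ∩ F '' U).Nonempty := by
        have h0U : (0 : E) ∈ U := mem_ball_self hρ
        exact ⟨F 0, hmaps (mem_image_of_mem F h0U), mem_image_of_mem F h0U⟩
      exact IsPreconnected.subset_left_of_subset_union hopen hclosed.isOpen_compl hdisj hcover hne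
        (convex_ball (0 : E) ρ).isPreconnected
    have hint := lintegral_abs_det_fderiv_eq_addHaar_image μ (measurableSet_ball : MeasurableSet U)
      (fun x _ => (hFD x).hasFDerivWithinAt) (hinj.mono hUK)
    rw [himage] at hint
    have hpos : ∀ x ∈ U, 0 < (ContinuousLinearMap.id ℝ E + t • D x).det := by
      intro x hx
      apply det_pos_of_norm_le
      rw [norm_smul, Real.norm_eq_abs, abs_of_nonneg ht]
      calc t * ‖D x‖ ≤ t0 * C := mul_le_mul htt0 (hC x (hUK hx)) (norm_nonneg _) ht0.le
        _ ≤ 1 / 2 := ht0C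
    rw [integral_eq_lintegral_of_nonneg_ae]
    · congr 1
      rw [← hint]
      apply setLIntegral_congr_fun measurableSet_ball
      intro x hx
      simp only
      rw [abs_of_pos (hpos x hx)]
    · exact (ae_restrict_iff' measurableSet_ball).2 (Filter.Eventually.of_forall
        fun x hx => (hpos x hx).le)
    · refine Continuous.aestronglyMeasurable ?_
      refine ContinuousLinearMap.continuous_det.comp ?_
      fun_prop
  -- interpolation
  let N : ℕ := finrank ℝ E + 1
  let v : ℕ → ℝ := fun i => t0 * i / N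
  have hN0 : (0 : ℝ) < N := by positivity
  have hv : Set.InjOn v (Finset.range N : Set ℕ) := by
    intro i _ j _ hij
    simp only [v] at hij
    field_simp at hij
    exact_mod_cast hij
  have hv1 : ∀ i ∈ Finset.range N, 0 ≤ v i ∧ v i ≤ t0 := by
    intro i hi
    have hi' : (i : ℝ) ≤ N := by exact_mod_cast (Finset.mem_range.1 hi).le
    refine ⟨by positivity, ?_⟩
    simp only [v]
    rw [div_le_iff₀ hN0]
    nlinarith
  let c : ℕ → ℝ := fun i => (Lagrange.basis (Finset.range N) v i).eval 1
  have hc : ∑ i ∈ Finset.range N, c i = 1 := by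
    have h8 := Lagrange.sum_basis hv ⟨0, Finset.mem_range.2 (Nat.succ_pos _)⟩
    have h9 := congrArg (Polynomial.eval 1) h8
    rw [Polynomial.eval_finsetSum, Polynomial.eval_one] at h9
    exact h9
  have hinterp : ∀ x, (ContinuousLinearMap.id ℝ E + (1 : ℝ) • D x).det =
      ∑ i ∈ Finset.range N, (ContinuousLinearMap.id ℝ E + (v i) • D x).det * c i := by
    intro x
    obtain ⟨P, hP, hPe⟩ := exists_poly_det (D x)
    have h10 : P = Lagrange.interpolate (Finset.range N) v fun i => P.eval (v i) := by
      apply Lagrange.eq_interpolate hv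
      rw [Finset.card_range]
      exact hP
    have h11 := congrArg (Polynomial.eval 1) h10
    rw [Lagrange.interpolate_apply, Polynomial.eval_finsetSum] at h11
    rw [← hPe 1, h11]
    apply Finset.sum_congr rfl
    intro i _
    rw [Polynomial.eval_mul, Polynomial.eval_C, hPe]
  have hintegrable : ∀ t : ℝ,
      IntegrableOn (fun x => (ContinuousLinearMap.id ℝ E + t • D x).det) U μ := by
    intro t
    have hcont : Continuous (fun x => (ContinuousLinearMap.id ℝ E + t • D x).det) := by
      refine ContinuousLinearMap.continuous_det.comp ?_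
      fun_prop
    exact (hcont.continuousOn.integrableOn_compact (isCompact_closedBall (0 : E) ρ)).mono_set hUK
  have hone : ∫ x in U, (ContinuousLinearMap.id ℝ E + (1 : ℝ) • D x).det ∂μ = (μ U).toReal := by
    calc ∫ x in U, (ContinuousLinearMap.id ℝ E + (1 : ℝ) • D x).det ∂μ
        = ∫ x in U, ∑ i ∈ Finset.range N,
            (ContinuousLinearMap.id ℝ E + (v i) • D x).det * c i ∂μ := by
          congr 1
          funext x
          exact hinterp x
      _ = ∑ i ∈ Finset.range N, ∫ x in U,
            (ContinuousLinearMap.id ℝ E + (v i) • D x).det * c i ∂μ := by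
          apply integral_finsetSum
          intro i _
          exact (hintegrable (v i)).mul_const (c i)
      _ = ∑ i ∈ Finset.range N, (μ U).toReal * c i := by
          apply Finset.sum_congr rfl
          intro i hi
          rw [integral_mul_const, key (v i) (hv1 i hi).1 (hv1 i hi).2]
      _ = (μ U).toReal := by rw [← Finset.mul_sum, hc, mul_one]
  -- the determinant of the derivative of the retraction vanishes
  have hzero : ∀ x, (ContinuousLinearMap.id ℝ E + (1 : ℝ) • D x).det = 0 := by
    intro x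
    by_contra hne
    have hfd : HasFDerivAt f (ContinuousLinearMap.id ℝ E + (1 : ℝ) • D x) x := by
      have h12 := (hasFDerivAt_id x).add ((hgD x).const_smul (1 : ℝ))
      refine h12.congr_of_eventuallyEq (Filter.Eventually.of_forall fun y => ?_)
      simp [g]
    have h13 := hfd.norm_sq
    have h14 : HasFDerivAt (fun y => ‖f y‖ ^ 2) (0 : E →L[ℝ] ℝ) x := by
      have : (fun y => ‖f y‖ ^ 2) = fun _ => ρ ^ 2 := by
        funext y
        rw [h1]
      rw [this]
      exact hasFDerivAt_const _ _
    have h15 := h13.unique h14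
    have hsurj : Function.Surjective
        ((ContinuousLinearMap.id ℝ E + (1 : ℝ) • D x : E →L[ℝ] E) : E →ₗ[ℝ] E) := by
      have hu : IsUnit (LinearMap.det
          ((ContinuousLinearMap.id ℝ E + (1 : ℝ) • D x : E →L[ℝ] E) : E →ₗ[ℝ] E)) :=
        isUnit_iff_ne_zero.2 hne
      exact (LinearMap.equivOfDetNeZero _ hne).surjective
    obtain ⟨w, hw⟩ := hsurj (f x)
    have h16 := DFunLike.congr_fun h15 w
    simp only [FunLike.coe_smul, Pi.smul_apply, ContinuousLinearMap.comp_apply,
      innerSL_apply_apply, _root_.zero_apply] at h16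
    have h17 : (ContinuousLinearMap.id ℝ E + (1 : ℝ) • D x) w = f x := hw
    rw [h17, real_inner_self_eq_norm_sq, h1] at h16
    have : 0 < ρ ^ 2 := by positivity
    simp at h16
    exact hρ.ne' h16
  have hmu : 0 < (μ U).toReal := by
    apply ENNReal.toReal_pos
    · exact (isOpen_ball.measure_pos μ ⟨0, mem_ball_self hρ⟩).ne'
    · exact measure_ball_lt_top.ne
  rw [← hone] at hmu
  simp only [hzero, integral_zero] at hmu
  exact lt_irrefl _ hmu

/-- A continuous self-map of a finite-dimensional inner product space that is the identity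
outside a ball has a zero. -/
theorem exists_zero_of_eq_id (G : E → E) (hG : Continuous G) (ρ : ℝ)
    (h : ∀ x, ρ ≤ ‖x‖ → G x = x) : ∃ x, G x = 0 := by
  by_contra hne
  push Not at hne
  let R : ℝ := max ρ 1
  have hR1 : 1 ≤ R := le_max_right _ _
  have hR0 : 0 < R := one_pos.trans_le hR1
  have hR : ∀ x, R ≤ ‖x‖ → G x = x := fun x hx => h x ((le_max_left _ _).trans hx)
  obtain ⟨x0, hx0, hmin⟩ := (isCompact_closedBall (0 : E) R).exists_isMinOn
    ⟨0, mem_closedBall_self hR0.le⟩ hG.norm.continuousOn
  let δ : ℝ := min ‖G x0‖ 1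
  have hδ : 0 < δ := lt_min (norm_pos_iff.2 (hne x0)) one_pos
  have hGδ : ∀ x, δ ≤ ‖G x‖ := by
    intro x
    rcases le_total ‖x‖ R with hx | hx
    · exact (min_le_left _ _).trans (hmin (mem_closedBall_zero_iff.2 hx))
    · rw [hR x hx]
      exact (min_le_right _ _).trans (hR1.trans hx)
  let g : E → E := fun x => G x - x
  have hgc : Continuous g := hG.sub continuous_id
  have hgs : HasCompactSupport g := by
    apply HasCompactSupport.intro (isCompact_closedBall (0 : E) R)
    intro x hx
    have : R ≤ ‖x‖ := by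
      rw [mem_closedBall_zero_iff, not_le] at hx
      exact hx.le
    simp only [g, hR x this, sub_self]
  have hgu : UniformContinuous g := hgs.uniformContinuous_of_continuous hgc
  obtain ⟨P, hP, hPg⟩ := hgu.exists_contDiff_dist_le (half_pos hδ)
  let χ : ContDiffBump (0 : E) := ⟨R, R + 1, hR0, lt_add_one R⟩
  let F : E → E := fun x => x + χ x • P x
  have hF : ContDiff ℝ 1 F := contDiff_id.add (χ.contDiff.smul (hP.of_le (by simp)))
  have hFG : ∀ x, ‖F x - G x‖ < δ / 2 := by
    intro x
    rcases le_total ‖x‖ R with hx | hx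
    · have h1 : χ x = 1 := χ.one_of_mem_closedBall (mem_closedBall_zero_iff.2 hx)
      have h2 : F x - G x = P x - g x := by
        simp only [F, g, h1, one_smul]
        abel
      rw [h2, ← dist_eq_norm]
      exact hPg x
    · have h1 : F x - G x = χ x • P x := by
        simp only [F, hR x hx]
        abel
      have h2 : g x = 0 := by simp only [g, hR x hx, sub_self]
      have h3 := hPg x
      rw [h2, dist_zero_right] at h3
      rw [h1, norm_smul, Real.norm_eq_abs, abs_of_nonneg χ.nonneg]
      calc χ x * ‖P x‖ ≤ 1 * ‖P x‖ := mul_le_mul_of_nonneg_right χ.le_one (norm_nonneg _)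
        _ = ‖P x‖ := one_mul _
        _ < δ / 2 := h3
  have hF0 : ∀ x, F x ≠ 0 := by
    intro x hx
    have h1 := hFG x
    rw [hx, zero_sub, norm_neg] at h1
    have h2 := hGδ x
    linarith
  have hFout : ∀ x, ‖x‖ = R + 1 → F x = x := by
    intro x hx
    have h1 : χ x = 0 := by
      apply χ.zero_of_le_dist
      rw [dist_zero_right, hx]
    simp only [F, h1, zero_smul, add_zero]
  refine no_smooth_retraction (R + 1) (by linarith) (fun x => ((R + 1) * ‖F x‖⁻¹) • F x) ?_ ?_ ?_
  · have h1 : ContDiff ℝ 1 fun x => ‖F x‖⁻¹ := (hF.norm ℝ hF0).inv fun x => norm_ne_zero_iff.2 (hF0 x)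
    exact (contDiff_const.mul h1).smul hF
  · intro x
    have h1 : ‖F x‖ ≠ 0 := norm_ne_zero_iff.2 (hF0 x)
    rw [norm_smul, norm_mul, norm_inv, norm_norm, Real.norm_eq_abs, abs_of_pos (by linarith),
      mul_assoc, inv_mul_cancel₀ h1, mul_one]
  · intro x hx
    simp only [hFout x hx, hx]
    rw [mul_inv_cancel₀ (by linarith), one_smul]

end Smooth

section General

variable {E : Type*} [NormedAddCommGroup E] [NormedSpace ℝ E] [FiniteDimensional ℝ E]

/-- A continuous self-map of a finite-dimensional real normed space that agrees with a linear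
automorphism outside a ball has a zero. -/
theorem exists_zero_of_eq_linear (A : E ≃L[ℝ] E) (G : E → E) (hG : Continuous G) (ρ : ℝ)
    (h : ∀ x, ρ ≤ ‖x‖ → G x = A x) : ∃ x, G x = 0 := by
  let e : E ≃L[ℝ] EuclideanSpace ℝ (Fin (finrank ℝ E)) := toEuclidean
  let F : EuclideanSpace ℝ (Fin (finrank ℝ E)) → EuclideanSpace ℝ (Fin (finrank ℝ E)) :=
    fun y => e (A.symm (G (e.symm y)))
  have hF : Continuous F := by
    fun_prop
  let C : ℝ := ‖(e : E →L[ℝ] EuclideanSpace ℝ (Fin (finrank ℝ E)))‖ + 1
  have hC : 0 < C := by positivity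
  obtain ⟨y, hy⟩ := exists_zero_of_eq_id F hF (C * |ρ|) (by
    intro y hy
    have h1 : ρ ≤ ‖e.symm y‖ := by
      have h2 := (e : E →L[ℝ] EuclideanSpace ℝ (Fin (finrank ℝ E))).le_opNorm (e.symm y)
      have h3 : (e : E →L[ℝ] EuclideanSpace ℝ (Fin (finrank ℝ E))) (e.symm y) = y :=
        e.apply_symm_apply y
      rw [h3] at h2
      have h4 : C * |ρ| ≤ C * ‖e.symm y‖ := by
        refine (hy.trans h2).trans ?_
        exact mul_le_mul_of_nonneg_right (by simp only [C]; linarith) (norm_nonneg _)
      exact (le_abs_self ρ).trans (le_of_mul_le_mul_left h4 hC)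
    simp only [F, h _ h1, ContinuousLinearEquiv.symm_apply_apply,
      ContinuousLinearEquiv.apply_symm_apply])
  refine ⟨e.symm y, ?_⟩
  have h1 : A.symm (G (e.symm y)) = 0 := (map_eq_zero_iff e e.injective).1 hy
  exact (map_eq_zero_iff A.symm A.symm.injective).1 h1

end General

end Pool.Agent.Lib.BrouwerThm
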